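import Mathlib
import Pool.Agent.V8H9.DP.Fin

/-!
# Primes just above the dilated powers of two

For a real `α > 0` and integers `h(n)` let `a_α(n)` be the number of primes in `[α 2^n, α 2^n + h(n)]`; the numbers
`a(n)` of the problem are the case `α = 1`, `h(n) = p_n`. We show that for almost every `α > 0` the intervals of the
problem `[α 2^n, α 2^n + p_n]` contain at least `c log n` primes (the expected order of magnitude) for a set of `n` of
lower logarithmic density at least `c`, with an absolute constant `c > 0`; and the same, with at least `c h(n) / n`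
primes, for every sequence of much shorter lengths `h(n) ≥ λ n`, `c` depending on `λ > 0` only.
-/

set_option autoImplicit false

namespace Pool.Agent.Results.MP_78b39f_nt.DilatedPowers

open Filter

/-- `aa h α n` is the number of primes `p` with `α 2^n ≤ p ≤ α 2^n + h(n)`. -/
noncomputable def aa (h : ℕ → ℕ) (α : ℝ) (n : ℕ) : ℕ :=
  Set.ncard {p : ℕ | p.Prime ∧ α * 2 ^ n ≤ (p : ℝ) ∧ (p : ℝ) ≤ α * 2 ^ n + h n}

/-- (1) For every `λ > 0` there is `c > 0` such that for every `h` with `λ n ≤ h(n) ≤ 2^n` for all large `n` and almost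
every `α > 0`: the set of the `n` for which `[α 2^n, α 2^n + h(n)]` contains at least `c h(n) / n` primes has lower
logarithmic density at least `c`.
(2) There is `c > 0` such that for almost every `α > 0` the set of the `n` for which `[α 2^n, α 2^n + p_n]` contains at
least `c log n` primes has lower logarithmic density at least `c` (`p_n = Nat.nth Nat.Prime (n - 1)`). -/
theorem result :
    (∀ lam : ℝ, 0 < lam → ∃ c : ℝ, 0 < c ∧ ∀ h : ℕ → ℕ,
      (∀ᶠ n : ℕ in atTop, lam * n ≤ h n ∧ h n ≤ 2 ^ n) →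
      ∀ᵐ α : ℝ, 0 < α → ∀ᶠ N : ℕ in atTop, c * Real.log N ≤
        ∑ n ∈ (Finset.Icc 1 N).filter (fun n : ℕ => c * ((h n : ℝ) / n) ≤ (aa h α n : ℝ)), 1 / (n : ℝ)) ∧
    ∃ c : ℝ, 0 < c ∧ ∀ᵐ α : ℝ, 0 < α → ∀ᶠ N : ℕ in atTop, c * Real.log N ≤
      ∑ n ∈ (Finset.Icc 1 N).filter (fun n : ℕ => c * Real.log n ≤
        (aa (fun n => Nat.nth Nat.Prime (n - 1)) α n : ℝ)), 1 / (n : ℝ) :=
  ⟨fun lam hlam => Pool.Agent.V8H9.DP.main_pos lam hlam, Pool.Agent.V8H9.DP.main_nth⟩

end Pool.Agent.Results.MP_78b39f_nt.DilatedPowers
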