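import Mathlib
import Pool.Agent.V8H9.DP.LawFin

/-!
# The exact logarithmic law for the primes just above the dilated powers of two

For a real `α > 0` and integers `h(n)` let `a_α(n)` be the number of primes in `[α 2^n, α 2^n + h(n)]`; the numbers
`a(n)` of the problem are the case `α = 1`, `h(n) = p_n`. The expected value of `a_α(n) / h(n)` is `1 / (n log 2)`. We
show that for almost every `α > 0` this is right on logarithmic average over `n`, with the exact constant, for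
arbitrary lengths `1 ≤ h(n) ≤ 2^(n/2)`: `∑_{n ≤ N} a_α(n) / h(n) ~ log N / log 2`.
-/

set_option autoImplicit false

namespace Pool.Agent.Results.MP_78b39f_nt.LogarithmicLaw

open Filter Topology

/-- `aa h α n` is the number of primes `p` with `α 2^n ≤ p ≤ α 2^n + h(n)`. -/
noncomputable def aa (h : ℕ → ℕ) (α : ℝ) (n : ℕ) : ℕ :=
  Set.ncard {p : ℕ | p.Prime ∧ α * 2 ^ n ≤ (p : ℝ) ∧ (p : ℝ) ≤ α * 2 ^ n + h n}

/-- (1) For every `h` with `1 ≤ h(n) ≤ 2^⌊n/2⌋` for all large `n` and almost every `α > 0`: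
`∑_{n ≤ N} a_α(n) / h(n) ~ log N / log 2`.
(2) In particular for the lengths of the problem, `h(n) = p_n = Nat.nth Nat.Prime (n - 1)`: for almost every `α > 0`
one has `∑_{n ≤ N} a_α(n) / p_n ~ log N / log 2`. -/
theorem result :
    (∀ h : ℕ → ℕ, (∀ᶠ n : ℕ in atTop, 1 ≤ h n ∧ h n ≤ 2 ^ (n / 2)) →
      ∀ᵐ α : ℝ, 0 < α → Tendsto (fun N : ℕ =>
        (∑ n ∈ Finset.Icc 1 N, (aa h α n : ℝ) / h n) / Real.log N) atTop (𝓝 (1 / Real.log 2))) ∧
    ∀ᵐ α : ℝ, 0 < α → Tendsto (fun N : ℕ =>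
      (∑ n ∈ Finset.Icc 1 N, (aa (fun n => Nat.nth Nat.Prime (n - 1)) α n : ℝ) /
        (Nat.nth Nat.Prime (n - 1) : ℝ)) / Real.log N) atTop (𝓝 (1 / Real.log 2)) :=
  ⟨fun h hh => Pool.Agent.V8H9.DP.law_pos h hh, Pool.Agent.V8H9.DP.law_nth⟩

end Pool.Agent.Results.MP_78b39f_nt.LogarithmicLaw
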