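import Mathlib
import Pool.Agent.V8H18.PF.Main

/-!
# Prime-free intervals around powers of two, and around powers in general
-/

set_option autoImplicit false

open Filter

namespace Pool.Agent.Results.MP_78b39f_nt.PrimeFreeIntervals

open Pool.Agent.V8H18.PF

/-- The length `log n * loglog n / logloglog n` of the prime-free intervals. -/
noncomputable def gapLength (n : ℕ) : ℝ :=
  Real.log n * Real.log (Real.log n) / Real.log (Real.log (Real.log n))

/-- The exponential sum `Σ a_i b_i ^ n`. -/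
def sumPow {r : ℕ} (a b : Fin r → ℤ) (n : ℕ) : ℤ := ∑ i, a i * b i ^ n

theorem result : ∃ C c : ℝ, 0 < C ∧ 0 < c ∧
    -- (1) nearest primes to powers
    (∀ b q a : ℕ, 2 ≤ b → 1 ≤ q → ∃ᶠ n : ℕ in atTop, n ≡ a [MOD q] ∧
      ∀ m : ℕ, |(m : ℝ) - (b : ℝ) ^ n| ≤ c / (b : ℝ) ^ q * gapLength n → ¬ m.Prime) ∧
    -- (2) intervals above the powers of all small bases simultaneously
    (∃ᶠ n : ℕ in atTop, ∀ b : ℕ, 2 ≤ b → (b : ℝ) ≤ c * gapLength n →
      ∀ m : ℕ, b ^ n ≤ m → (m : ℝ) ≤ (b : ℝ) ^ n + c * gapLength n → ¬ m.Prime) ∧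
    -- (3) such exponents in every moderately long interval: two-sided
    (∀ b q a z M : ℕ, 2 ≤ b → 1 ≤ q → 16 ≤ z → z + q ≤ M → ∃ n : ℕ, M < n ∧
      (n : ℝ) ≤ M + q * Real.exp (C * (b : ℝ) ^ q * (z * Real.log (Real.log z) / Real.log z)) ∧
      n ≡ a [MOD q] ∧ ∀ m : ℕ, |(m : ℤ) - (b : ℤ) ^ n| ≤ z → ¬ m.Prime) ∧
    -- (4) such exponents in every moderately long interval: one-sided, all bases
    (∀ z M : ℕ, 16 ≤ z → 1 ≤ M → ∃ n : ℕ, M < n ∧
      (n : ℝ) ≤ M + Real.exp (C * (z * Real.log (Real.log z) / Real.log z)) ∧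
      ∀ b k : ℕ, 2 ≤ b → b + k ≤ z → ¬ (b ^ n + k).Prime) ∧
    -- (5) the modulus, for all exponential sums
    (∀ z : ℕ, 16 ≤ z → ∃ L : ℕ, 0 < L ∧
      Real.log L ≤ C * (z * Real.log (Real.log z) / Real.log z) ∧
      ∀ j n : ℕ, 1 ≤ j → j < n → n ≡ j [MOD L] → ∀ (r : ℕ) (a b : Fin r → ℤ) (k : ℤ),
        2 ≤ |sumPow a b j + k| → |sumPow a b j + k| ≤ z →
        ∃ p : ℕ, p.Prime ∧ p ≤ z ∧ (p : ℤ) ∣ sumPow a b n + k) := by
  obtain ⟨C0, hC0, h0⟩ := exists_modulus
  obtain ⟨C1, hC1, h1⟩ := two_sided_exists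
  obtain ⟨C2, hC2, h2⟩ := one_sided_exists
  set C := C0 + C1 + C2 with hC
  have hCpos : 0 < C := by linarith
  have hle0 : C0 ≤ C := by linarith
  have hle1 : C1 ≤ C := by linarith
  have hle2 : C2 ≤ C := by linarith
  have hiter := (loglog_tendsto.eventually (eventually_ge_atTop (Real.exp 1)))
  obtain ⟨N1, hN1⟩ := eventually_atTop.1 hiter
  refine ⟨C, 1 / (8 * C), hCpos, by positivity, ?_, ?_, ?_, ?_, ?_⟩
  · intro b q a hb hq
    have hb1 : (1 : ℝ) ≤ b := by exact_mod_cast (by omega : 1 ≤ b)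
    have hbq : (1 : ℝ) ≤ (b : ℝ) ^ q := one_le_pow₀ hb1
    have hA : 1 ≤ C1 * (b : ℝ) ^ q := by nlinarith
    obtain ⟨N2, hN2⟩ := eventually_atTop.1 (log_le_of hA q)
    obtain ⟨N3, hN3⟩ := eventually_atTop.1 (len_growth (A := 2 * (C1 * (b : ℝ) ^ q)) (by linarith))
    rw [frequently_atTop]
    intro N
    set z := N + N1 + N2 + N3 + 16 with hz
    obtain ⟨n, hn1, hn2, hn3, hn4⟩ := h1 b q a z (z + q) hb hq (by omega) le_rfl
    refine ⟨n, by omega, hn3, fun m hm => hn4 m ?_⟩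
    rw [← mul_assoc] at hn2
    have h3 := hN2 z (by omega) n (by omega) hn2
    have h4 := hN3 z (by omega) n (hN1 n (by omega)) h3
    have hz0 : (0 : ℝ) < z := by exact_mod_cast (by omega : 0 < z)
    have h5 : 1 / (8 * C) / (b : ℝ) ^ q * gapLength n ≤ z := by
      have h6 : gapLength n = len n := rfl
      have h7 : (0 : ℝ) < (b : ℝ) ^ q := by linarith
      rw [h6, div_div, one_div_mul_eq_div, div_le_iff₀ (by positivity)]
      calc len n ≤ 2 * (2 * (C1 * (b : ℝ) ^ q)) * z := h4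
        _ ≤ 2 * (2 * (C * (b : ℝ) ^ q)) * z := by gcongr
        _ ≤ z * (8 * C * (b : ℝ) ^ q) := by
            have : 0 < C * (b : ℝ) ^ q * z := by positivity
            linarith
    have h8 : |(((m : ℤ) - (b : ℤ) ^ n : ℤ) : ℝ)| ≤ ((z : ℤ) : ℝ) := by
      push_cast
      exact hm.trans h5
    rw [← Int.cast_abs] at h8
    exact_mod_cast h8
  · obtain ⟨N2, hN2⟩ := eventually_atTop.1 (log_le_of hC2 1)
    obtain ⟨N3, hN3⟩ := eventually_atTop.1 (len_growth (A := 2 * C2) (by linarith))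
    rw [frequently_atTop]
    intro N
    set z := N + N1 + N2 + N3 + 16 with hz
    obtain ⟨n, hn1, hn2, hn4⟩ := h2 z (z + 1) (by omega) (by omega)
    have h3 := hN2 z (by omega) n (by omega) (by
      rw [Nat.cast_one, one_mul]; exact hn2)
    have h4 := hN3 z (by omega) n (hN1 n (by omega)) h3
    have hz0 : (0 : ℝ) < z := by exact_mod_cast (by omega : 0 < z)
    have h5 : 1 / (8 * C) * gapLength n ≤ z / 2 := by
      have h6 : gapLength n = len n := rfl
      rw [h6, one_div_mul_eq_div, div_le_iff₀ (by positivity)]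
      calc len n ≤ 2 * (2 * C2) * z := h4
        _ ≤ 2 * (2 * C) * z := by gcongr
        _ = z / 2 * (8 * C) := by ring
    refine ⟨n, by omega, ?_⟩
    intro b hb hb2 m hm1 hm2
    obtain ⟨k, rfl⟩ := Nat.exists_eq_add_of_le hm1
    apply hn4 b k hb
    have h6 : (b : ℝ) + k ≤ z := by
      push_cast at hm2
      linarith
    exact_mod_cast h6
  · intro b q a z M hb hq hz hM
    obtain ⟨n, hn1, hn2, hn3, hn4⟩ := h1 b q a z M hb hq hz hM
    refine ⟨n, hn1, hn2.trans ?_, hn3, hn4⟩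
    have hX := X_pos hz
    have h3 : C1 * ((b : ℝ) ^ q * X z) ≤
        C * (b : ℝ) ^ q * (z * Real.log (Real.log z) / Real.log z) := by
      rw [← X_eq, ← mul_assoc]
      gcongr
    gcongr
  · intro z M hz hM
    obtain ⟨n, hn1, hn2, hn3⟩ := h2 z M hz hM
    refine ⟨n, hn1, hn2.trans ?_, hn3⟩
    have hX := X_pos hz
    have h3 : C2 * X z ≤ C * (z * Real.log (Real.log z) / Real.log z) := by
      rw [← X_eq]
      gcongr
    gcongr
  · intro z hz
    obtain ⟨L, hL0, hL1, hL2⟩ := h0 z hz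
    refine ⟨L, hL0, hL2.trans ?_, ?_⟩
    · have hX := X_pos hz
      rw [← X_eq]
      gcongr
    · intro j n hj hjn hmod r a b k h3 h4
      exact exists_prime_dvd hL1 hj hjn hmod a b k h3 h4

end Pool.Agent.Results.MP_78b39f_nt.PrimeFreeIntervals
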