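import Mathlib
import Pool.Agent.V8H9.DP.KhD

/-!
# A zero-one law for the primes just above the dilated powers of two

For a real `α > 0` and real lengths `h(n) ≥ 0` we ask whether infinitely many of the intervals
`[α 2^n, α 2^n + h(n)]` contain a prime (in the problem `α = 1` and `h(n) = p_n`). The expected number of these primes
is `h(n) / (n log 2)`. We prove the full analogue of Khintchine's theorem: if `∑ min(h(n)/n, 1)` converges, then for
almost every `α > 0` only finitely many of the intervals contain a prime; if it diverges, then for almost every `α > 0`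
infinitely many do. There is no condition of monotonicity or regularity on `h`.
-/

set_option autoImplicit false

namespace Pool.Agent.Results.MP_78b39f_nt.ZeroOneLaw

open Filter Topology

/-- Let `h : ℕ → ℝ` be any function with `h(n) ≥ 0`.
(1) If `∑ min(h(n)/n, 1) < ∞`, then for almost every real `α > 0` the interval `[α 2^n, α 2^n + h(n)]` contains no
prime for all large `n`.
(2) If `∑ min(h(n)/n, 1) = ∞`, then for almost every real `α > 0` the interval `[α 2^n, α 2^n + h(n)]` contains a
prime for infinitely many `n`.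
(The term `n = 0` of the sums is `0` by the conventions of Lean, and plays no role.) -/
theorem result (h : ℕ → ℝ) (h0 : ∀ n, 0 ≤ h n) :
    (Summable (fun n : ℕ => min (h n / n) 1) → ∀ᵐ α : ℝ, 0 < α → ∀ᶠ n : ℕ in atTop,
      ¬ ∃ p : ℕ, p.Prime ∧ α * 2 ^ n ≤ (p : ℝ) ∧ (p : ℝ) ≤ α * 2 ^ n + h n) ∧
    (¬ Summable (fun n : ℕ => min (h n / n) 1) → ∀ᵐ α : ℝ, 0 < α → ∃ᶠ n : ℕ in atTop,
      ∃ p : ℕ, p.Prime ∧ α * 2 ^ n ≤ (p : ℝ) ∧ (p : ℝ) ≤ α * 2 ^ n + h n) :=
  Pool.Agent.V8H9.DP.khintchine h h0

end Pool.Agent.Results.MP_78b39f_nt.ZeroOneLaw
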